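import Pool.Agent.Run7.h941.NMainEq

set_option autoImplicit false
open MvPolynomial

/-- The Eisenbud-Green-Harris conjecture for regular sequences of full length `n` whenever
`a_i ≥ (a_1 - 1) + … + (a_{i-1} - 1)` for all `i ≥ 4` (with no condition on `a_1, a_2, a_3`); in
particular for all degrees when `n = 3`. Apart from this hypothesis the statement is word for word
the posed one. -/
theorem Pool.Agent.Results.MP_e5dae2_al.FastFromFourth.result :
    ∀ (K : Type*) [Field K] (n : ℕ) (I : Ideal (MvPolynomial (Fin n) K))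
      (a : Fin n → ℕ) (f : Fin n → MvPolynomial (Fin n) K),
      (∀ i : Fin n, 3 ≤ i.val → ∑ j ∈ Finset.Iio i, (a j - 1) ≤ a i) →
      (∀ p ∈ I, ∀ d : ℕ, MvPolynomial.homogeneousComponent d p ∈ I) →
      Monotone a →
      (∀ i, 2 ≤ a i) →
      (∀ i, (f i).IsHomogeneous (a i)) →
      (∀ i, f i ∈ I) →
      RingTheory.Sequence.IsRegular (MvPolynomial (Fin n) K) (List.ofFn f) →
      ∃ J : Ideal (MvPolynomial (Fin n) K),
        (∃ S : Set (Fin n →₀ ℕ),
            J = Ideal.span ((fun s => (MvPolynomial.monomial s (1 : K))) '' S)) ∧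
        (∀ m m' : Fin n →₀ ℕ, (∑ i, m i) = (∑ i, m' i) →
            (∃ j : Fin n, (∀ k, k < j → m k = m' k) ∧ m j < m' j) →
            MvPolynomial.monomial m (1 : K) ∈ J →
            MvPolynomial.monomial m' (1 : K) ∈ J) ∧
        ∀ d : ℕ,
          Module.finrank K
              ↥(MvPolynomial.homogeneousSubmodule (Fin n) K d ⊓
                  Submodule.restrictScalars K I) =
            Module.finrank K
              ↥(MvPolynomial.homogeneousSubmodule (Fin n) K d ⊓
                  Submodule.restrictScalars K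
                    (Ideal.span (Set.range fun i : Fin n =>
                        (MvPolynomial.X i : MvPolynomial (Fin n) K) ^ a i) ⊔ J)) := by
  intro K _ n I a f hF _ hm ha2 hf hfI hreg
  obtain ⟨S, h1, h2, h3⟩ := Run7.H941.N.eghw_main le_rfl ha2 hm hF hf
    hreg hfI
  refine ⟨Run7.H941.N.MI K S, ⟨_, rfl⟩, ?_, ?_⟩
  · intro s t hst hlt hs
    rw [Run7.H941.N.monomial_mem_MI h1] at hs ⊢
    refine h2 _ _ hst.symm ?_ hs
    exact le_of_lt (Run7.H941.N.lex_lt_iff.mpr hlt)
  · intro d
    have h4 := h3 d
    rw [sup_comm] at h4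
    rw [inf_comm, inf_comm (MvPolynomial.homogeneousSubmodule (Fin n) K d)]
    exact h4.symm
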